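import Mathlib

/-!
The graph `G` on 48 vertices: a cycle `8, 9, ..., 47` and eight further vertices `0, ..., 7`.
The adjacency matrix is packed in the single number `big`.
-/

namespace Pool.Agent.Lib.MP_4a358c_co.H63

def big : Nat := 0x400000000120a000000000005000000000002800000000001400000000100a000000000205000000000002800000000001400000000000a000000001005000000000002800000000001400000080000a000000000005000000000002800000000001400000400000a000000800005000000000002800000000001400000000000a000004000005000080000002800000000001400000000000a000000000005000600000002800000000001400000000000a000000000005001000000002800800000001400000000000a000000000005000000000002806000000001400000000000a0000000000050080000000020100080200000c00008020000c80000020000f08000002000f0000400100f00000040010f0040000001030004000000130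

/-- adjacency test -/
def ad (u v : Nat) : Bool := big.testBit (48 * u + v)

/-- neighbourhood mask -/
def nb (u : Nat) : Nat := (big >>> (48 * u)) % 2 ^ 48

theorem nb_testBit (u v : Nat) : (nb u).testBit v = (decide (v < 48) && ad u v) := by
  unfold nb ad
  rw [Nat.testBit_mod_two_pow, Nat.testBit_shiftRight]

def G : SimpleGraph (Fin 48) where
  Adj u v := ad u v = true
  symm := ⟨by
    have h : ∀ u v : Fin 48, ad u v = true → ad v u = true := by decide +kernel
    exact fun u v => h u v⟩
  loopless := ⟨by
    have h : ∀ u : Fin 48, ad u u = true → False := by decide +kernel
    exact fun u => h u⟩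

instance : DecidableRel G.Adj := fun u v => inferInstanceAs (Decidable (ad u v = true))

theorem G_adj (u v : Fin 48) : G.Adj u v ↔ ad u v = true := Iff.rfl

theorem G_adj_nb (u v : Fin 48) : G.Adj u v ↔ (nb u).testBit v = true := by
  rw [G_adj, nb_testBit]
  simp

/-- the vertices of the long cycle -/
def h (t : Nat) : Fin 48 := ⟨8 + t % 40, by omega⟩

end Pool.Agent.Lib.MP_4a358c_co.H63
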