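import Pool.Agent.Lib.MP_4a358c_co.H63.Graph

/-!
A verified depth first search through all induced cycles of `G`.
-/

namespace Pool.Agent.Lib.MP_4a358c_co.H63

open SimpleGraph

def full : Nat := 2 ^ 48 - 1

noncomputable def force {α : Type} (n : Nat) (f : Nat → α) : α :=
  Nat.rec (f 0) (fun m _ => f (Nat.succ m)) n

theorem force_eq {α : Type} (n : Nat) (f : Nat → α) : force n f = f n := by
  cases n <;> rfl

noncomputable def notCB (used : Nat) : Bool :=
  [(9, 10), (22, 23), (1, 4), (2, 6)].any fun (e : Nat × Nat) =>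
    !(used.testBit e.1) && (!(used.testBit e.2) &&
      !(Nat.beq ((used ||| nb e.1 ||| nb e.2) &&& full) full))

def L48 : List Nat := [0,1,2,3,4,5,6,7,8,9,10,11,12,13,14,15,16,17,18,19,20,21,22,23,24,25,26,27,
  28,29,30,31,32,33,34,35,36,37,38,39,40,41,42,43,44,45,46,47]

theorem mem_L48 {x : Nat} (hx : x < 48) : x ∈ L48 := by
  have h : ∀ x : Fin 48, (x : Nat) ∈ L48 := by decide +kernel
  exact h ⟨x, hx⟩

noncomputable def allBits (fuel : Nat) : Nat → (Nat → Bool) → Bool :=
  Nat.rec (fun _ _ => false) (fun _ ih c p =>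
    bif Nat.beq c 0 then true else
      force (Nat.log2 c) fun x => p x && force (Nat.xor c (Nat.pow 2 x)) fun c' => ih c' p) fuel

theorem allBits_sound : ∀ (fuel c : Nat) (p : Nat → Bool), allBits fuel c p = true →
    ∀ x, c.testBit x = true → p x = true := by
  intro fuel
  induction fuel with
  | zero => intro c p h; simp [allBits] at h
  | succ fuel ih =>
    intro c p h x hx
    have h' : (bif Nat.beq c 0 then true else
      force (Nat.log2 c) fun x => p x && force (Nat.xor c (Nat.pow 2 x)) fun c' =>
        allBits fuel c' p) = true := h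
    have hc : Nat.beq c 0 = false := by
      cases hb : Nat.beq c 0
      · rfl
      · have := Nat.eq_of_beq_eq_true hb
        subst this
        simp at hx
    rw [hc, force_eq, force_eq] at h'
    simp only [cond_false, Bool.and_eq_true] at h'
    by_cases hxl : x = Nat.log2 c
    · rw [hxl]; exact h'.1
    · refine ih _ _ h'.2 x ?_
      show (c ^^^ 2 ^ (Nat.log2 c)).testBit x = true
      rw [Nat.testBit_xor, Nat.testBit_two_pow, hx]
      simp [Ne.symm hxl]

noncomputable def ok (fuel : Nat) : Nat → Nat → Nat → Nat → Nat → Bool :=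
  Nat.rec (fun _ _ _ _ _ => false)
    (fun _ ih ns last used allowed len =>
      force (nb last) fun nl =>
      force (Nat.land nl allowed) fun c =>
      force (Nat.xor allowed c) fun a =>
      allBits 8 c fun x =>
          force (Nat.lor used (Nat.pow 2 x)) fun u =>
          (bif ns.testBit x then Nat.beq ((len + 1) % 4) 0 && notCB u
           else ih ns x u a (Nat.succ len))) fuel

theorem ok_zero (ns last used allowed len : Nat) : ok 0 ns last used allowed len = false := rfl

theorem ok_succ (fuel ns last used allowed len : Nat)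
    (h : ok (fuel + 1) ns last used allowed len = true) (x : Nat)
    (hx : (nb last).testBit x = true) (hx' : allowed.testBit x = true) :
    (ns.testBit x = true → (len + 1) % 4 = 0 ∧ notCB (used ||| 2 ^ x) = true) ∧
    (ns.testBit x = false →
      ok fuel ns x (used ||| 2 ^ x) (allowed ^^^ (nb last &&& allowed)) (len + 1) = true) := by
  have h1 : (force (nb last) fun nl =>
      force (Nat.land nl allowed) fun c =>
      force (Nat.xor allowed c) fun a =>
      allBits 8 c fun x =>
          force (Nat.lor used (Nat.pow 2 x)) fun u =>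
          (bif ns.testBit x then Nat.beq ((len + 1) % 4) 0 && notCB u
           else ok fuel ns x u a (Nat.succ len))) = true := h
  rw [force_eq, force_eq, force_eq] at h1
  have h2 := allBits_sound _ _ _ h1 x (by
    show (nb last &&& allowed).testBit x = true
    rw [Nat.testBit_and, hx, hx']; rfl)
  rw [force_eq] at h2
  constructor
  · intro hs
    rw [hs] at h2
    simp only [cond_true, Bool.and_eq_true] at h2
    exact ⟨Nat.eq_of_beq_eq_true h2.1, h2.2⟩
  · intro hs
    rw [hs] at h2
    exact h2

noncomputable def start (s x : Nat) : Bool :=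
  force (nb s) fun ns => force (2 ^ s ||| 2 ^ x) fun u =>
  force ((full ^^^ (2 ^ (s + 1) - 1)) ^^^ 2 ^ x) fun a => ok 48 ns x u a 2

noncomputable def mainCheck : Bool :=
  L48.all fun s => L48.all fun x => !((nb s).testBit x) || (Nat.ble x s || start s x)

theorem mainCheck_eq : mainCheck = true := by decide +kernel

/-- an induced cycle, listed from its smallest vertex -/
structure Cyc (n : ℕ) (w : ℕ → Fin 48) : Prop where
  three : 3 ≤ n
  adj : ∀ i j, i < j → j < n → (G.Adj (w i) (w j) ↔ j = i + 1 ∨ (i = 0 ∧ j = n - 1))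
  min : ∀ i, 0 < i → i < n → w 0 < w i
  inj : ∀ i j, i < j → j < n → w i ≠ w j

theorem ok_sound {n : ℕ} {w : ℕ → Fin 48} (hw : Cyc n w) : ∀ fuel k used allowed : ℕ,
    1 ≤ k → k + 1 < n →
    ok fuel (nb (w 0)) (w k) used allowed (k + 1) = true →
    (∀ i, i ≤ k → used.testBit (w i) = true) →
    (∀ j, k < j → j < n → allowed.testBit (w j) = true) →
    n % 4 = 0 ∧ ∃ u : ℕ, (∀ i, i < n → u.testBit (w i) = true) ∧ notCB u = true := by
  intro fuel
  induction fuel with
  | zero => intro k used allowed _ _ h; rw [ok_zero] at h; exact absurd h (by decide)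
  | succ fuel ih =>
    intro k used allowed hk hkn h hU hA
    have hadj : G.Adj (w k) (w (k + 1)) := (hw.adj k (k + 1) (by omega) hkn).2 (Or.inl rfl)
    have key := ok_succ fuel _ _ _ _ _ h (w (k + 1)) ((G_adj_nb _ _).1 hadj)
      (hA (k + 1) (by omega) hkn)
    have hU' : ∀ i, i ≤ k + 1 → (used ||| 2 ^ (w (k + 1) : ℕ)).testBit (w i) = true := by
      intro i hi
      rw [Nat.testBit_or, Nat.testBit_two_pow]
      rcases Nat.lt_or_ge k i with h1 | h1
      · have : i = k + 1 := by omega
        subst this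
        simp
      · rw [hU i h1]; rfl
    by_cases hs : G.Adj (w 0) (w (k + 1))
    · have hn : k + 1 = n - 1 := by
        have := (hw.adj 0 (k + 1) (by omega) hkn).1 hs
        omega
      have h3 := key.1 ((G_adj_nb _ _).1 hs)
      refine ⟨?_, _, ?_, h3.2⟩
      · have : n = k + 1 + 1 := by omega
        rw [this]; exact h3.1
      · intro i hi
        exact hU' i (by omega)
    · have hn : k + 1 + 1 < n := by
        by_contra hcon
        exact hs ((hw.adj 0 (k + 1) (by omega) hkn).2 (Or.inr ⟨rfl, by omega⟩))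
      have hs' : (nb (w 0)).testBit (w (k + 1)) = false := by
        cases hb : (nb (w 0)).testBit (w (k + 1))
        · rfl
        · exact absurd ((G_adj_nb _ _).2 hb) hs
      refine ih (k + 1) _ _ (by omega) hn (key.2 hs') hU' ?_
      intro j hj hjn
      rw [Nat.testBit_xor, Nat.testBit_and, hA j (by omega) hjn]
      have h4 : ¬ G.Adj (w k) (w j) := by
        rw [hw.adj k j (by omega) hjn]
        omega
      have h5 : (nb (w k)).testBit (w j) = false := by
        cases hb : (nb (w k)).testBit (w j)
        · rfl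
        · exact absurd ((G_adj_nb _ _).2 hb) h4
      rw [h5]; rfl

theorem cyc_sound {n : ℕ} {w : ℕ → Fin 48} (hw : Cyc n w) :
    n % 4 = 0 ∧ ∃ u : ℕ, (∀ i, i < n → u.testBit (w i) = true) ∧ notCB u = true := by
  have h3 := hw.three
  have hm := mainCheck_eq
  unfold mainCheck at hm
  rw [List.all_eq_true] at hm
  have h1 := hm (w 0) (mem_L48 (w 0).isLt)
  rw [List.all_eq_true] at h1
  have h2 := h1 (w 1) (mem_L48 (w 1).isLt)
  have hadj : G.Adj (w 0) (w 1) := (hw.adj 0 1 (by omega) (by omega)).2 (Or.inl rfl)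
  rw [(G_adj_nb _ _).1 hadj] at h2
  have hlt : w 0 < w 1 := hw.min 1 (by omega) (by omega)
  have hlt' : Nat.ble (w 1) (w 0) = false := by
    cases hb : Nat.ble (w 1) (w 0)
    · rfl
    · have := Nat.le_of_ble_eq_true hb
      have h' : (w 0 : ℕ) < w 1 := hlt
      omega
  rw [hlt'] at h2
  have h4 : start (w 0) (w 1) = true := by simpa using h2
  unfold start at h4
  rw [force_eq, force_eq, force_eq] at h4
  refine ok_sound hw 48 1 _ _ le_rfl (by omega) h4 ?_ ?_
  · intro i hi
    rw [Nat.testBit_or, Nat.testBit_two_pow, Nat.testBit_two_pow]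
    rcases Nat.lt_or_ge 0 i with h5 | h5
    · have : i = 1 := by omega
      subst this
      simp
    · have : i = 0 := by omega
      subst this
      simp
  · intro j hj hjn
    have h6 : (w 0 : ℕ) < w j := hw.min j (by omega) hjn
    have h7 : (w 1 : ℕ) ≠ w j := fun h => hw.inj 1 j hj hjn (Fin.ext h)
    have h8 := (w j).isLt
    unfold full
    rw [Nat.testBit_xor, Nat.testBit_xor, Nat.testBit_two_pow, Nat.testBit_two_pow_sub_one,
      Nat.testBit_two_pow_sub_one]
    have e1 : decide ((w j : ℕ) < 48) = true := by simp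
    have e2 : decide ((w j : ℕ) < (w 0 : ℕ) + 1) = false := by
      rw [decide_eq_false_iff_not]; omega
    have e3 : decide ((w 1 : ℕ) = (w j : ℕ)) = false := by
      rw [decide_eq_false_iff_not]; exact h7
    rw [e1, e2, e3]; rfl

theorem notCB_sound (u : ℕ) (hu : notCB u = true) : ∃ a b c : Fin 48, G.Adj a b ∧ ¬ G.Adj a c ∧
    ¬ G.Adj b c ∧ u.testBit a = false ∧ u.testBit b = false ∧ u.testBit c = false := by
  unfold notCB at hu
  rw [List.any_eq_true] at hu
  obtain ⟨e, he, h⟩ := hu
  rw [Bool.and_eq_true, Bool.and_eq_true, Bool.not_eq_true', Bool.not_eq_true',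
    Bool.not_eq_true'] at h
  obtain ⟨h1, h2, h3⟩ := h
  have he' : ∃ a b : Fin 48, G.Adj a b ∧ e = ((a : ℕ), (b : ℕ)) := by
    have hE : ∀ e ∈ ([(9, 10), (22, 23), (1, 4), (2, 6)] : List (ℕ × ℕ)),
        ∃ a b : Fin 48, G.Adj a b ∧ e = ((a : ℕ), (b : ℕ)) := by
      intro e he
      simp only [List.mem_cons, List.not_mem_nil, or_false] at he
      rcases he with rfl | rfl | rfl | rfl
      · exact ⟨9, 10, by decide +kernel, rfl⟩
      · exact ⟨22, 23, by decide +kernel, rfl⟩
      · exact ⟨1, 4, by decide +kernel, rfl⟩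
      · exact ⟨2, 6, by decide +kernel, rfl⟩
    exact hE e he
  obtain ⟨a, b, hab, rfl⟩ := he'
  have hc : ∃ c : Fin 48, u.testBit c = false ∧ (nb a).testBit c = false ∧
      (nb b).testBit c = false := by
    by_contra hcon
    push Not at hcon
    have : (u ||| nb a ||| nb b) &&& full = full := by
      apply Nat.eq_of_testBit_eq
      intro i
      unfold full
      rw [Nat.testBit_and, Nat.testBit_or, Nat.testBit_or, Nat.testBit_two_pow_sub_one]
      rcases Nat.lt_or_ge i 48 with hi | hi
      · have := hcon ⟨i, hi⟩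
        simp only at this
        cases h5 : u.testBit i <;> cases h6 : (nb a).testBit i <;> simp_all
      · have : decide (i < 48) = false := by
          rw [decide_eq_false_iff_not]; omega
        rw [this]; simp
    simp only at h3
    rw [this] at h3
    simp at h3
  obtain ⟨c, c1, c2, c3⟩ := hc
  refine ⟨a, b, c, hab, ?_, ?_, h1, h2, c1⟩
  · rw [G_adj_nb, c2]; decide
  · rw [G_adj_nb, c3]; decide

theorem cyc_of_embedding {n : ℕ} (hn : 3 ≤ n) (f : cycleGraph n ↪g G) :
    ∃ w : ℕ → Fin 48, Cyc n w ∧ ∀ i : Fin n, ∃ j, j < n ∧ w j = f i := by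
  have hn0 : 0 < n := by omega
  have : NeZero n := ⟨by omega⟩
  obtain ⟨k, -, hk⟩ := Finset.exists_min_image (Finset.univ : Finset (Fin n)) (fun i => f i)
    ⟨⟨0, hn0⟩, Finset.mem_univ _⟩
  have hmod : ∀ a : ℕ, a < 2 * n → a % n = if a < n then a else a - n := by
    intro a ha
    split_ifs with h
    · exact Nat.mod_eq_of_lt h
    · rw [Nat.mod_eq_sub_mod (by omega), Nat.mod_eq_of_lt (by omega)]
  let p : ℕ → Fin n := fun i => ⟨(k + i) % n, Nat.mod_lt _ hn0⟩
  have hp : ∀ i, (p i : ℕ) = (k + i) % n := fun i => rfl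
  have hpinj : ∀ i j, i < j → j < n → p i ≠ p j := by
    intro i j hij hj h
    have h1 := congrArg Fin.val h
    rw [hp, hp, hmod _ (by omega), hmod _ (by omega)] at h1
    have := k.isLt
    split_ifs at h1 <;> omega
  have hp0 : p 0 = k := by
    apply Fin.ext
    rw [hp, Nat.add_zero, Nat.mod_eq_of_lt k.isLt]
  refine ⟨fun i => f (p i), ⟨hn, ?_, ?_, ?_⟩, ?_⟩
  · intro i j hij hj
    rw [f.map_adj_iff, cycleGraph_adj', Fin.sub_def, Fin.sub_def]
    simp only [hp]
    have hk' := k.isLt
    rw [hmod (k + i) (by omega), hmod (k + j) (by omega)]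
    rw [hmod _ (by split_ifs <;> omega), hmod _ (by split_ifs <;> omega)]
    split_ifs <;> omega
  · intro i hi hin
    show f (p 0) < f (p i)
    rw [hp0]
    have h1 := hk (p i) (Finset.mem_univ _)
    have h2 : f k ≠ f (p i) := by
      intro h
      have := f.injective h
      rw [← hp0] at this
      exact hpinj 0 i hi hin this
    exact lt_of_le_of_ne h1 h2
  · intro i j hij hj h
    exact hpinj i j hij hj (f.injective h)
  · intro i
    refine ⟨(i + (n - k)) % n, Nat.mod_lt _ hn0, ?_⟩
    show f (p _) = f i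
    congr 1
    apply Fin.ext
    rw [hp]
    have hi := i.isLt
    have hk' := k.isLt
    rw [hmod (i + (n - k)) (by omega), hmod _ (by split_ifs <;> omega)]
    split_ifs <;> omega

/-- every induced cycle of `G` has length divisible by `4`, and the other vertices do not induce
a complete bipartite graph -/
theorem cycle_sound {n : ℕ} (hn : 3 ≤ n) (f : cycleGraph n ↪g G) :
    n % 4 = 0 ∧ ∃ a b c : Fin 48, G.Adj a b ∧ ¬ G.Adj a c ∧ ¬ G.Adj b c ∧
      a ∉ Set.range f ∧ b ∉ Set.range f ∧ c ∉ Set.range f := by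
  obtain ⟨w, hw, hr⟩ := cyc_of_embedding hn f
  obtain ⟨h4, u, hu, hcb⟩ := cyc_sound hw
  obtain ⟨a, b, c, hab, hac, hbc, ha, hb, hc⟩ := notCB_sound u hcb
  have key : ∀ x : Fin 48, u.testBit x = false → x ∉ Set.range f := by
    rintro x hx ⟨i, rfl⟩
    obtain ⟨j, hj, hj'⟩ := hr i
    have := hu j hj
    rw [hj', hx] at this
    exact absurd this (by decide)
  exact ⟨h4, a, b, c, hab, hac, hbc, key a ha, key b hb, key c hc⟩

end Pool.Agent.Lib.MP_4a358c_co.H63
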