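import Pool.Agent.Lib.MP_4a358c_co.H63.Holes

/-!
`G` has no skew partition.
-/

namespace Pool.Agent.Lib.MP_4a358c_co.H63

open SimpleGraph

/-- spread `X` along edges inside `R` -/
noncomputable def sweep (R : Nat) : List Nat → Nat → Nat :=
  List.rec (fun X => X)
    (fun v _ ih X => force (bif X.testBit v then Nat.lor X (Nat.land (nb v) R) else X) ih)

theorem sweep_sound (R : Nat) (P : Nat → Prop)
    (hP : ∀ v x, P v → (nb v).testBit x = true → R.testBit x = true → P x) :
    ∀ (l : List Nat) (X : Nat), (∀ i, X.testBit i = true → P i) →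
      ∀ i, (sweep R l X).testBit i = true → P i := by
  intro l
  induction l with
  | nil => intro X hX i hi; exact hX i hi
  | cons v l ih =>
    intro X hX i hi
    have h1 : sweep R (v :: l) X =
        force (bif X.testBit v then Nat.lor X (Nat.land (nb v) R) else X) (sweep R l) := rfl
    rw [h1, force_eq] at hi
    refine ih _ ?_ i hi
    intro j hj
    cases hv : X.testBit v
    · rw [hv] at hj; exact hX j hj
    · rw [hv] at hj
      have hj' : (X ||| (nb v &&& R)).testBit j = true := hj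
      rw [Nat.testBit_or, Nat.testBit_and, Bool.or_eq_true, Bool.and_eq_true] at hj'
      rcases hj' with hj' | hj'
      · exact hX j hj'
      · exact hP v j (hX v hv) hj'.1 hj'.2

def L48r : List Nat := [47,46,45,44,43,42,41,40,39,38,37,36,35,34,33,32,31,30,29,28,27,26,25,24,
  23,22,21,20,19,18,17,16,15,14,13,12,11,10,9,8,7,6,5,4,3,2,1,0]

noncomputable def spread (R X : Nat) : Nat :=
  sweep R L48 (sweep R L48r (sweep R L48 (sweep R L48r (sweep R L48 (sweep R L48r X)))))

theorem spread_sound (R : Nat) (P : Nat → Prop)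
    (hP : ∀ v x, P v → (nb v).testBit x = true → R.testBit x = true → P x)
    (X : Nat) (hX : ∀ i, X.testBit i = true → P i) :
    ∀ i, (spread R X).testBit i = true → P i := by
  unfold spread
  exact sweep_sound R P hP _ _ (sweep_sound R P hP _ _ (sweep_sound R P hP _ _
    (sweep_sound R P hP _ _ (sweep_sound R P hP _ _ (sweep_sound R P hP _ _ hX)))))

/-- `R` is connected, and all vertices outside, except perhaps `u` and `v`, have a neighbour
in `R` -/
noncomputable def good (R u v : Nat) : Bool :=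
  Nat.beq (spread R (2 ^ Nat.log2 R)) R &&
    (R.testBit (Nat.log2 R) && (Nat.blt (Nat.log2 R) 48 &&
    L48.all fun x => R.testBit x || (Nat.beq x u || (Nat.beq x v ||
      !(Nat.beq (Nat.land (nb x) R) 0)))))

theorem good_sound {R u v : Nat} (hg : good R u v = true) {A1 A2 : Set (Fin 48)}
    (hR : ∀ x : Fin 48, R.testBit x = true → x ∈ A1 ∨ x ∈ A2)
    (hRlt : ∀ x, R.testBit x = true → x < 48)
    (hA : ∀ x ∈ A1, ∀ y ∈ A2, ¬ G.Adj x y)
    (hd : Disjoint A1 A2) (h1 : A1.Nonempty) (h2 : A2.Nonempty)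
    (huv1 : ∀ x ∈ A1, (x : ℕ) ≠ u ∧ (x : ℕ) ≠ v) (huv2 : ∀ x ∈ A2, (x : ℕ) ≠ u ∧ (x : ℕ) ≠ v) :
    False := by
  unfold good at hg
  rw [Bool.and_eq_true, Bool.and_eq_true, Bool.and_eq_true, List.all_eq_true] at hg
  obtain ⟨hs, ht, hl, hdom⟩ := hg
  have hl' : Nat.log2 R < 48 := by
    unfold Nat.blt at hl
    have := Nat.le_of_ble_eq_true hl
    omega
  have hs' := Nat.eq_of_beq_eq_true hs
  -- the symmetric core
  have core : ∀ A1 A2 : Set (Fin 48), (∀ x : Fin 48, R.testBit x = true → x ∈ A1 ∨ x ∈ A2) →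
      (∀ x ∈ A1, ∀ y ∈ A2, ¬ G.Adj x y) → Disjoint A1 A2 → A2.Nonempty →
      (∀ x ∈ A2, (x : ℕ) ≠ u ∧ (x : ℕ) ≠ v) →
      (⟨Nat.log2 R, hl'⟩ : Fin 48) ∈ A1 → False := by
    intro A1 A2 hR hA hd h2 huv2 hseed
    have hall : ∀ i, (spread R (2 ^ Nat.log2 R)).testBit i = true →
        ∃ h : i < 48, (⟨i, h⟩ : Fin 48) ∈ A1 := by
      refine spread_sound R _ ?_ _ ?_
      · rintro a x ⟨ha, ha'⟩ hax hxR
        refine ⟨hRlt x hxR, ?_⟩
        rcases hR ⟨x, hRlt x hxR⟩ hxR with h | h
        · exact h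
        · exact absurd ((G_adj_nb ⟨a, ha⟩ ⟨x, hRlt x hxR⟩).2 hax) (hA _ ha' _ h)
      · intro i hi
        rw [Nat.testBit_two_pow] at hi
        have hi' : Nat.log2 R = i := by simpa using hi
        subst hi'
        exact ⟨hl', hseed⟩
    obtain ⟨y, hy⟩ := h2
    have hyR : R.testBit y = false := by
      cases hb : R.testBit y
      · rfl
      · rw [← hs'] at hb
        obtain ⟨_, h⟩ := hall _ hb
        exact absurd hy (Set.disjoint_left.1 hd h)
    have h3 := hdom y (mem_L48 y.isLt)
    rw [hyR] at h3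
    obtain ⟨hyu, hyv⟩ := huv2 y hy
    have e1 : Nat.beq y u = false := by
      cases hb : Nat.beq y u
      · rfl
      · exact absurd (Nat.eq_of_beq_eq_true hb) hyu
    have e2 : Nat.beq y v = false := by
      cases hb : Nat.beq y v
      · rfl
      · exact absurd (Nat.eq_of_beq_eq_true hb) hyv
    rw [e1, e2] at h3
    have h4 : (nb y &&& R) ≠ 0 := by
      intro h0
      have h0' : Nat.land (nb y) R = 0 := h0
      rw [h0'] at h3
      exact absurd h3 (by decide)
    obtain ⟨i, hi⟩ := Nat.exists_testBit_of_ne_zero h4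
    rw [Nat.testBit_and, Bool.and_eq_true] at hi
    have hi2 := hi.2
    rw [← hs'] at hi2
    obtain ⟨hi3, hi4⟩ := hall i hi2
    exact hA _ hi4 _ hy ((G_adj_nb y ⟨i, hi3⟩).2 hi.1).symm
  rcases hR ⟨Nat.log2 R, hl'⟩ ht with h | h
  · exact core A1 A2 hR hA hd h2 huv2 h
  · exact core A2 A1 (fun x hx => (hR x hx).symm) (fun x hx y hy hxy => hA y hy x hx hxy.symm)
      hd.symm h1 huv1 h

noncomputable def skewCheck : Bool :=
  L48.all fun u => L48.all fun v => !((nb u).testBit v) || ((Nat.blt u 8 && Nat.blt v 8) ||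
    force (Nat.xor full (Nat.lor (nb u) (nb v))) fun R => good R u v)

theorem skewCheck_eq : skewCheck = true := by decide +kernel

theorem holeCheck_eq : good (full ^^^ 255) 48 48 = true := by decide +kernel

theorem no_skew (A1 A2 B1 B2 : Set (Fin 48)) (hA1 : A1.Nonempty) (hA2 : A2.Nonempty)
    (hB1 : B1.Nonempty) (hB2 : B2.Nonempty) (hU : A1 ∪ A2 ∪ B1 ∪ B2 = Set.univ)
    (d12 : Disjoint A1 A2) (dA1 : Disjoint A1 (B1 ∪ B2)) (dA2 : Disjoint A2 (B1 ∪ B2))
    (hA : ∀ x ∈ A1, ∀ y ∈ A2, ¬ G.Adj x y) (hB : ∀ x ∈ B1, ∀ y ∈ B2, G.Adj x y) : False := by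
  have hcov : ∀ x, x ∈ A1 ∨ x ∈ A2 ∨ x ∈ B1 ∨ x ∈ B2 := by
    intro x
    have : x ∈ A1 ∪ A2 ∪ B1 ∪ B2 := by rw [hU]; trivial
    simpa [or_assoc] using this
  by_cases hex : ∃ u ∈ B1, ∃ v ∈ B2, ¬ ((u : ℕ) < 8 ∧ (v : ℕ) < 8)
  · obtain ⟨u, hu, v, hv, huv⟩ := hex
    have hc := skewCheck_eq
    unfold skewCheck at hc
    rw [List.all_eq_true] at hc
    have h1 := hc u (mem_L48 u.isLt)
    rw [List.all_eq_true] at h1
    have h2 := h1 v (mem_L48 v.isLt)
    rw [(G_adj_nb _ _).1 (hB u hu v hv), force_eq] at h2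
    have h3 : (Nat.blt u 8 && Nat.blt v 8) = false := by
      cases hb : (Nat.blt u 8 && Nat.blt v 8)
      · rfl
      · rw [Bool.and_eq_true] at hb
        exfalso
        apply huv
        constructor
        · have := Nat.le_of_ble_eq_true (show Nat.ble (u + 1) 8 = true from hb.1)
          omega
        · have := Nat.le_of_ble_eq_true (show Nat.ble (v + 1) 8 = true from hb.2)
          omega
    rw [h3] at h2
    have h4 : good (full ^^^ (nb u ||| nb v)) u v = true := by simpa using h2
    have hbit : ∀ x, (full ^^^ (nb u ||| nb v)).testBit x = true →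
        x < 48 ∧ (nb u).testBit x = false ∧ (nb v).testBit x = false := by
      intro x hx
      unfold full at hx
      rw [Nat.testBit_xor, Nat.testBit_or, Nat.testBit_two_pow_sub_one, nb_testBit,
        nb_testBit] at hx
      rw [nb_testBit, nb_testBit]
      by_cases hx48 : x < 48
      · simp only [hx48, decide_true, Bool.true_and] at hx ⊢
        refine ⟨trivial, ?_⟩
        cases h5 : ad u x <;> cases h6 : ad v x <;> simp_all
      · simp [hx48] at hx
    refine good_sound h4 ?_ (fun x hx => (hbit x hx).1) hA d12 hA1 hA2 ?_ ?_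
    · intro x hx
      obtain ⟨-, hxu, hxv⟩ := hbit x hx
      rcases hcov x with h | h | h | h
      · exact Or.inl h
      · exact Or.inr h
      · have := (G_adj_nb v x).1 (hB x h v hv).symm
        rw [hxv] at this; exact absurd this (by decide)
      · have := (G_adj_nb u x).1 (hB u hu x h)
        rw [hxu] at this; exact absurd this (by decide)
    · intro x hx
      have h5 := Set.disjoint_left.1 dA1 hx
      constructor
      · intro h; apply h5; rw [Fin.ext h]; exact Or.inl hu
      · intro h; apply h5; rw [Fin.ext h]; exact Or.inr hv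
    · intro x hx
      have h5 := Set.disjoint_left.1 dA2 hx
      constructor
      · intro h; apply h5; rw [Fin.ext h]; exact Or.inl hu
      · intro h; apply h5; rw [Fin.ext h]; exact Or.inr hv
  · push Not at hex
    obtain ⟨b1, hb1⟩ := hB1
    obtain ⟨b2, hb2⟩ := hB2
    have hlt1 : ∀ x ∈ B1, (x : ℕ) < 8 := fun x hx => (hex x hx b2 hb2).1
    have hlt2 : ∀ x ∈ B2, (x : ℕ) < 8 := fun x hx => (hex b1 hb1 x hx).2
    have hbit : ∀ x, (full ^^^ 255).testBit x = true → x < 48 ∧ 8 ≤ x := by
      intro x hx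
      have e : (255 : ℕ) = 2 ^ 8 - 1 := rfl
      unfold full at hx
      rw [e, Nat.testBit_xor, Nat.testBit_two_pow_sub_one, Nat.testBit_two_pow_sub_one] at hx
      by_cases h1 : x < 48 <;> by_cases h2 : x < 8 <;> simp [h1, h2] at hx ⊢ <;> omega
    refine good_sound holeCheck_eq ?_ (fun x hx => (hbit x hx).1) hA d12 hA1 hA2 ?_ ?_
    · intro x hx
      have := (hbit x hx).2
      rcases hcov x with h | h | h | h
      · exact Or.inl h
      · exact Or.inr h
      · have := hlt1 x h; omega
      · have := hlt2 x h; omega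
    · intro x _
      have := x.isLt
      omega
    · intro x _
      have := x.isLt
      omega

end Pool.Agent.Lib.MP_4a358c_co.H63
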