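import Pool.Agent.Lib.MP_4a358c_co.H63.Graph

/-!
`G` has no 2-join.
-/

namespace Pool.Agent.Lib.MP_4a358c_co.H63

open SimpleGraph

/-- a chordless path inside `W` from `A` to `B` with no interior vertex in `A` or `B` -/
def Pth (W A B : Fin 48 → Prop) (k : ℕ) (f : pathGraph (k + 1) ↪g G) : Prop :=
  (∀ i, W (f i)) ∧ A (f 0) ∧ B (f (Fin.last k)) ∧
    ∀ i, i ≠ 0 → i ≠ Fin.last k → ¬ A (f i) ∧ ¬ B (f i)

/-- there is a path, and no path covers `W` -/
def NP (W A B : Fin 48 → Prop) : Prop :=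
  (∃ k f, Pth W A B k f) ∧ ∀ k f, Pth W A B k f → ∃ u, W u ∧ u ∉ Set.range f

def revEmb {k : ℕ} (f : pathGraph (k + 1) ↪g G) : pathGraph (k + 1) ↪g G where
  toFun i := f (Fin.rev i)
  inj' i j hij := Fin.rev_injective (f.injective hij)
  map_rel_iff' := by
    intro a b
    show G.Adj (f (Fin.rev a)) (f (Fin.rev b)) ↔ _
    rw [f.map_adj_iff, pathGraph_adj, pathGraph_adj, Fin.val_rev, Fin.val_rev]
    have := a.isLt
    have := b.isLt
    omega

theorem revEmb_apply {k : ℕ} (f : pathGraph (k + 1) ↪g G) (i : Fin (k + 1)) :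
    revEmb f i = f (Fin.rev i) := rfl

theorem Pth.rev {W A B : Fin 48 → Prop} {k : ℕ} {f : pathGraph (k + 1) ↪g G}
    (hf : Pth W A B k f) : Pth W B A k (revEmb f) := by
  obtain ⟨h1, h2, h3, h4⟩ := hf
  refine ⟨fun i => h1 _, ?_, ?_, ?_⟩
  · rw [revEmb_apply, Fin.rev_zero]; exact h3
  · rw [revEmb_apply, Fin.rev_last]; exact h2
  · intro i hi hi'
    rw [revEmb_apply]
    refine (h4 (Fin.rev i) ?_ ?_).symm
    · intro h
      apply hi'
      rw [← Fin.rev_rev i, h, Fin.rev_zero]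
    · intro h
      apply hi
      rw [← Fin.rev_rev i, h, Fin.rev_last]

theorem NP.swap {W A B : Fin 48 → Prop} (h : NP W A B) : NP W B A := by
  obtain ⟨⟨k, f, hf⟩, h2⟩ := h
  refine ⟨⟨k, _, hf.rev⟩, fun k f hf => ?_⟩
  obtain ⟨u, hu, hu'⟩ := h2 k _ hf.rev
  refine ⟨u, hu, fun ⟨i, hi⟩ => hu' ⟨Fin.rev i, ?_⟩⟩
  rw [revEmb_apply, Fin.rev_rev, hi]

/-- the properties of a 2-join with sides `s`, `¬ s` and classes `A`, `B` -/
structure TJ (s A B : Fin 48 → Prop) : Prop where
  dis : ∀ u, A u → B u → False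
  cross : ∀ u v, s u → ¬ s v → (G.Adj u v ↔ (A u ∧ A v) ∨ (B u ∧ B v))
  a1 : ∃ u, s u ∧ A u
  a2 : ∃ u, ¬ s u ∧ A u
  b1 : ∃ u, s u ∧ B u
  b2 : ∃ u, ¬ s u ∧ B u
  p1 : NP s A B
  p2 : NP (fun u => ¬ s u) A B

theorem TJ.swapAB {s A B : Fin 48 → Prop} (t : TJ s A B) : TJ s B A where
  dis u h1 h2 := t.dis u h2 h1
  cross u v hu hv := by rw [t.cross u v hu hv]; exact or_comm
  a1 := t.b1
  a2 := t.b2
  b1 := t.a1
  b2 := t.a2
  p1 := t.p1.swap
  p2 := t.p2.swap

theorem TJ.swapS {s A B : Fin 48 → Prop} (t : TJ s A B) : TJ (fun u => ¬ s u) A B where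
  dis := t.dis
  cross u v hu hv := by
    rw [G.adj_comm, t.cross v u (not_not.1 hv) hu]
    constructor <;> rintro (⟨h1, h2⟩ | ⟨h1, h2⟩)
    · exact Or.inl ⟨h2, h1⟩
    · exact Or.inr ⟨h2, h1⟩
    · exact Or.inl ⟨h2, h1⟩
    · exact Or.inr ⟨h2, h1⟩
  a1 := t.a2
  a2 := by simpa only [not_not] using t.a1
  b1 := t.b2
  b2 := by simpa only [not_not] using t.b1
  p1 := t.p2
  p2 := by simpa only [not_not] using t.p1

/-- a side cannot have at most two vertices -/
theorem TJ.two {s A B : Fin 48 → Prop} (t : TJ s A B) (u v : Fin 48)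
    (h : ∀ x, s x → x = u ∨ x = v) : False := by
  obtain ⟨⟨k, f, hf⟩, h2⟩ := t.p1
  obtain ⟨x, hx, hx'⟩ := h2 k f hf
  obtain ⟨f1, f2, f3, -⟩ := hf
  have hne : f 0 ≠ f (Fin.last k) := by
    intro he
    rw [he] at f2
    exact t.dis _ f2 f3
  have e0 : x ≠ f 0 := fun he => hx' ⟨0, he.symm⟩
  have e1 : x ≠ f (Fin.last k) := fun he => hx' ⟨_, he.symm⟩
  rcases h x hx with rfl | rfl
  · rcases h _ (f1 0) with h0 | h0
    · exact e0 h0.symm
    · rcases h _ (f1 (Fin.last k)) with h3 | h3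
      · exact e1 h3.symm
      · exact hne (h0.trans h3.symm)
  · rcases h _ (f1 0) with h0 | h0
    · rcases h _ (f1 (Fin.last k)) with h3 | h3
      · exact hne (h0.trans h3.symm)
      · exact e1 h3.symm
    · exact e0 h0.symm

/-! ### facts about the graph -/

theorem h_add (t : ℕ) : h (t + 40) = h t := by
  apply Fin.ext
  show 8 + (t + 40) % 40 = 8 + t % 40
  omega

theorem h_val (t : ℕ) : (h t : ℕ) = 8 + t % 40 := rfl

theorem h_congr {a b : ℕ} (hab : a % 40 = b % 40) : h a = h b := by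
  apply Fin.ext
  rw [h_val, h_val, hab]

theorem h_adj (a b : ℕ) :
    G.Adj (h a) (h b) ↔ (a + 1) % 40 = b % 40 ∨ (b + 1) % 40 = a % 40 := by
  have key : ∀ a b : Fin 40,
      G.Adj (h a) (h b) ↔ ((a : ℕ) + 1) % 40 = b ∨ ((b : ℕ) + 1) % 40 = a := by
    decide +kernel
  have e1 : h a = h (⟨a % 40, Nat.mod_lt _ (by omega)⟩ : Fin 40) := h_congr (by simp)
  have e2 : h b = h (⟨b % 40, Nat.mod_lt _ (by omega)⟩ : Fin 40) := h_congr (by simp)
  rw [e1, e2, key]
  simp only
  omega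

theorem eq_h (x : Fin 48) (hx : 8 ≤ (x : ℕ)) (a : ℕ) : ∃ t, t < 40 ∧ x = h (a + t) := by
  refine ⟨((x : ℕ) - 8 + 40 - a % 40) % 40, Nat.mod_lt _ (by omega), ?_⟩
  apply Fin.ext
  rw [h_val]
  have := x.isLt
  omega

theorem h_ge (t : ℕ) : 8 ≤ (h t : ℕ) := by rw [h_val]; omega

/-- the only common neighbour of two vertices at distance two on the long cycle -/
theorem common (t : ℕ) (y : Fin 48) (h1 : G.Adj (h t) y) (h2 : G.Adj (h (t + 2)) y) :
    y = h (t + 1) := by
  have key : ∀ a : Fin 40, ∀ y : Fin 48, G.Adj (h a) y → G.Adj (h (a + 2 : ℕ)) y →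
      y = h (a + 1 : ℕ) := by
    decide +kernel
  have e1 : h t = h (⟨t % 40, Nat.mod_lt _ (by omega)⟩ : Fin 40) := h_congr (by simp)
  have e2 : h (t + 2) = h ((⟨t % 40, Nat.mod_lt _ (by omega)⟩ : Fin 40) + 2 : ℕ) :=
    h_congr (by simp only; omega)
  have e3 : h (t + 1) = h ((⟨t % 40, Nat.mod_lt _ (by omega)⟩ : Fin 40) + 1 : ℕ) :=
    h_congr (by simp only; omega)
  rw [e1] at h1
  rw [e2] at h2
  rw [e3]
  exact key _ y h1 h2

/-- every chord vertex has a neighbour on the cycle different from any given vertex -/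
theorem chord_att : ∀ u x : Fin 48, (u : ℕ) < 8 → ∃ y : Fin 48, 8 ≤ (y : ℕ) ∧ y ≠ x ∧
    G.Adj u y := by
  decide +kernel

/-- distinct chord vertices have different attachments, even outside one vertex -/
theorem chord_ne : ∀ u v x : Fin 48, (u : ℕ) < 8 → (v : ℕ) < 8 →
    (∀ y : Fin 48, 8 ≤ (y : ℕ) → y ≠ x → (G.Adj u y ↔ G.Adj v y)) → u = v := by
  have key : ∀ u v : Fin 8, u ≠ v → ∀ x : Fin 48, ∃ y : Fin 48, 8 ≤ (y : ℕ) ∧ y ≠ x ∧
      ¬ (G.Adj (Fin.castLE (by omega) u) y ↔ G.Adj (Fin.castLE (by omega) v) y) := by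
    decide +kernel
  intro u v x hu hv hy
  by_contra hne
  obtain ⟨y, y1, y2, y3⟩ := key ⟨u, hu⟩ ⟨v, hv⟩ (fun h => hne (Fin.ext (Fin.mk.inj h))) x
  exact y3 (hy y y1 y2)

/-- two chord vertices whose attachments are not contained in a set of two vertices -/
theorem chords01 (x y : Fin 48)
    (h0 : ∀ z : Fin 48, 8 ≤ (z : ℕ) → G.Adj 0 z → z = x ∨ z = y)
    (h1 : ∀ z : Fin 48, 8 ≤ (z : ℕ) → G.Adj 1 z → z = x ∨ z = y) : False := by
  have a1 := h0 8 (by decide) (by decide +kernel)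
  have a2 := h0 38 (by decide) (by decide +kernel)
  have a3 := h1 12 (by decide) (by decide +kernel)
  rcases a1 with rfl | rfl
  · rcases a2 with h | rfl
    · exact absurd h (by decide)
    · exact absurd a3 (by decide)
  · rcases a2 with rfl | h
    · exact absurd a3 (by decide)
    · exact absurd h (by decide)

/-! ### the sides of the chord vertices -/

variable {s A B : Fin 48 → Prop}

/-- a side all of whose vertices are chord vertices -/
theorem TJ.hole_const (t : TJ s A B) (hs : ∀ x : Fin 48, 8 ≤ (x : ℕ) → ¬ s x) : False := by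
  obtain ⟨u, hu, hua⟩ := t.a1
  obtain ⟨v, hv, hvb⟩ := t.b1
  have hlt : ∀ x, s x → (x : ℕ) < 8 := fun x hx => by
    by_contra hcon
    exact hs x (by omega) hx
  have hA : ∀ x, s x → A x → ∀ y : Fin 48, 8 ≤ (y : ℕ) → (G.Adj x y ↔ A y) := by
    intro x hx hxa y hy
    rw [t.cross x y hx (hs y hy)]
    constructor
    · rintro (⟨-, h⟩ | ⟨h, -⟩)
      · exact h
      · exact (t.dis x hxa h).elim
    · intro h; exact Or.inl ⟨hxa, h⟩
  have hB : ∀ x, s x → B x → ∀ y : Fin 48, 8 ≤ (y : ℕ) → (G.Adj x y ↔ B y) := by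
    intro x hx hxb y hy
    rw [t.cross x y hx (hs y hy)]
    constructor
    · rintro (⟨h, -⟩ | ⟨-, h⟩)
      · exact (t.dis x h hxb).elim
      · exact h
    · intro h; exact Or.inr ⟨hxb, h⟩
  refine t.two u v fun x hx => ?_
  obtain ⟨y, hy, -, hxy⟩ := chord_att x 0 (hlt x hx)
  rcases (t.cross x y hx (hs y hy)).1 hxy with ⟨hxa, -⟩ | ⟨hxb, -⟩
  · left
    refine chord_ne x u 0 (hlt x hx) (hlt u hu) fun z hz _ => ?_
    rw [hA x hx hxa z hz, hA u hu hua z hz]
  · right
    refine chord_ne x v 0 (hlt x hx) (hlt v hv) fun z hz _ => ?_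
    rw [hB x hx hxb z hz, hB v hv hvb z hz]

/-- a side with exactly one vertex of the long cycle -/
theorem TJ.hole_single (t : TJ s A B) (c : ℕ) (hc : s (h (c + 1)))
    (hs : ∀ x : Fin 48, 8 ≤ (x : ℕ) → x ≠ h (c + 1) → ¬ s x)
    (ha : A (h (c + 1))) : False := by
  have hc0 : ¬ s (h c) := hs _ (h_ge _) (by
    intro he
    have := congrArg Fin.val he
    rw [h_val, h_val] at this
    omega)
  have hc2 : ¬ s (h (c + 2)) := hs _ (h_ge _) (by
    intro he
    have := congrArg Fin.val he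
    rw [h_val, h_val] at this
    omega)
  have hadj0 : G.Adj (h (c + 1)) (h c) := (h_adj _ _).2 (Or.inr rfl)
  have hadj2 : G.Adj (h (c + 1)) (h (c + 2)) := (h_adj _ _).2 (Or.inl rfl)
  have a0 : A (h c) := by
    rcases (t.cross _ _ hc hc0).1 hadj0 with h1 | h1
    · exact h1.2
    · exact (t.dis _ ha h1.1).elim
  have a2 : A (h (c + 2)) := by
    rcases (t.cross _ _ hc hc2).1 hadj2 with h1 | h1
    · exact h1.2
    · exact (t.dis _ ha h1.1).elim
  have huniq : ∀ x, s x → A x → x = h (c + 1) := by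
    intro x hx hxa
    exact common c x ((t.cross _ _ hx hc0).2 (Or.inl ⟨hxa, a0⟩)).symm
      ((t.cross _ _ hx hc2).2 (Or.inl ⟨hxa, a2⟩)).symm
  obtain ⟨v, hv, hvb⟩ := t.b1
  have hlt : ∀ x, s x → x ≠ h (c + 1) → (x : ℕ) < 8 := fun x hx hx' => by
    by_contra hcon
    exact hs x (by omega) hx' hx
  have hvne : v ≠ h (c + 1) := by
    rintro rfl
    exact t.dis _ ha hvb
  have hB : ∀ x, s x → B x → ∀ y : Fin 48, 8 ≤ (y : ℕ) → y ≠ h (c + 1) →
      (G.Adj x y ↔ B y) := by
    intro x hx hxb y hy hy'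
    rw [t.cross x y hx (hs y hy hy')]
    constructor
    · rintro (⟨h, -⟩ | ⟨-, h⟩)
      · exact (t.dis x h hxb).elim
      · exact h
    · intro h; exact Or.inr ⟨hxb, h⟩
  refine t.two (h (c + 1)) v fun x hx => ?_
  by_cases hxe : x = h (c + 1)
  · exact Or.inl hxe
  · right
    obtain ⟨y, hy, hy', hxy⟩ := chord_att x (h (c + 1)) (hlt x hx hxe)
    have hxb : B x := by
      rcases (t.cross x y hx (hs y hy hy')).1 hxy with ⟨hxa, -⟩ | ⟨hxb, -⟩
      · exact absurd (huniq x hx hxa) hxe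
      · exact hxb
    refine chord_ne x v (h (c + 1)) (hlt x hx hxe) (hlt v hv hvne) fun z hz hz' => ?_
    rw [hB x hx hxb z hz hz', hB v hv hvb z hz hz']

/-- a side with exactly two vertices of the long cycle, isolated and of different classes -/
theorem TJ.hole_double (t : TJ s A B) (c d : ℕ) (hc : s (h (c + 1))) (hd : s (h (d + 1)))
    (hs : ∀ x : Fin 48, 8 ≤ (x : ℕ) → x ≠ h (c + 1) → x ≠ h (d + 1) → ¬ s x)
    (hc0 : ¬ s (h c)) (hc2 : ¬ s (h (c + 2))) (hd0 : ¬ s (h d)) (hd2 : ¬ s (h (d + 2)))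
    (ha : A (h (c + 1))) (hb : B (h (d + 1)))
    (hch : (∀ x : Fin 48, (x : ℕ) < 8 → s x) ∨ (∀ x : Fin 48, (x : ℕ) < 8 → ¬ s x)) :
    False := by
  rcases hch with hch | hch
  · have a0 : A (h c) := by
      rcases (t.cross _ _ hc hc0).1 ((h_adj _ _).2 (Or.inr rfl)) with h1 | h1
      · exact h1.2
      · exact (t.dis _ ha h1.1).elim
    have a2 : A (h (c + 2)) := by
      rcases (t.cross _ _ hc hc2).1 ((h_adj _ _).2 (Or.inl rfl)) with h1 | h1
      · exact h1.2
      · exact (t.dis _ ha h1.1).elim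
    have b0 : B (h d) := by
      rcases (t.cross _ _ hd hd0).1 ((h_adj _ _).2 (Or.inr rfl)) with h1 | h1
      · exact (t.dis _ h1.1 hb).elim
      · exact h1.2
    have b2 : B (h (d + 2)) := by
      rcases (t.cross _ _ hd hd2).1 ((h_adj _ _).2 (Or.inl rfl)) with h1 | h1
      · exact (t.dis _ h1.1 hb).elim
      · exact h1.2
    have key : ∀ u : Fin 48, (u : ℕ) < 8 → ∀ z : Fin 48, 8 ≤ (z : ℕ) → G.Adj u z →
        z = h (c + 1) ∨ z = h (d + 1) := by
      intro u hu z hz huz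
      by_contra hcon
      push Not at hcon
      have hsz := hs z hz hcon.1 hcon.2
      have hsu := hch u hu
      rcases (t.cross u z hsu hsz).1 huz with ⟨h1, -⟩ | ⟨h1, -⟩
      · have := common c u ((t.cross _ _ hsu hc0).2 (Or.inl ⟨h1, a0⟩)).symm
          ((t.cross _ _ hsu hc2).2 (Or.inl ⟨h1, a2⟩)).symm
        have h3 := h_ge (c + 1)
        rw [← this] at h3
        omega
      · have := common d u ((t.cross _ _ hsu hd0).2 (Or.inr ⟨h1, b0⟩)).symm
          ((t.cross _ _ hsu hd2).2 (Or.inr ⟨h1, b2⟩)).symm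
        have h3 := h_ge (d + 1)
        rw [← this] at h3
        omega
    exact chords01 _ _ (key 0 (by decide)) (key 1 (by decide))
  · refine t.two (h (c + 1)) (h (d + 1)) fun x hx => ?_
    by_contra hcon
    push Not at hcon
    rcases Nat.lt_or_ge (x : ℕ) 8 with h1 | h1
    · exact hch x h1 hx
    · exact hs x h1 hcon.1 hcon.2 hx

/-- if each class contains an edge of the long cycle then all chord vertices lie on one side -/
theorem TJ.chords_same (t : TJ s A B)
    (hA : ∃ x y : Fin 48, 8 ≤ (x : ℕ) ∧ 8 ≤ (y : ℕ) ∧ s x ∧ ¬ s y ∧ A x ∧ A y ∧ G.Adj x y)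
    (hB : ∃ x y : Fin 48, 8 ≤ (x : ℕ) ∧ 8 ≤ (y : ℕ) ∧ s x ∧ ¬ s y ∧ B x ∧ B y ∧ G.Adj x y) :
    (∀ x : Fin 48, (x : ℕ) < 8 → s x) ∨ (∀ x : Fin 48, (x : ℕ) < 8 → ¬ s x) := by
  obtain ⟨xa, ya, a1, a2, a3, a4, a5, a6, a7⟩ := hA
  obtain ⟨xb, yb, b1, b2, b3, b4, b5, b6, b7⟩ := hB
  have one : ∀ p q : Fin 48, G.Adj p q → s p → ¬ s q →
      ∃ x y : Fin 48, 8 ≤ (x : ℕ) ∧ 8 ≤ (y : ℕ) ∧ G.Adj p y ∧ G.Adj q x ∧ G.Adj x y := by
    intro p q hpq hp hq
    rcases (t.cross p q hp hq).1 hpq with ⟨h1, h2⟩ | ⟨h1, h2⟩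
    · exact ⟨xa, ya, a1, a2, (t.cross _ _ hp a4).2 (Or.inl ⟨h1, a6⟩),
        ((t.cross _ _ a3 hq).2 (Or.inl ⟨a5, h2⟩)).symm, a7⟩
    · exact ⟨xb, yb, b1, b2, (t.cross _ _ hp b4).2 (Or.inr ⟨h1, b6⟩),
        ((t.cross _ _ b3 hq).2 (Or.inr ⟨b5, h2⟩)).symm, b7⟩
  have same : ∀ p q : Fin 48, G.Adj p q →
      (∀ x y : Fin 48, 8 ≤ (x : ℕ) → 8 ≤ (y : ℕ) → G.Adj p y → G.Adj q x → ¬ G.Adj x y) →
      (s p ↔ s q) := by
    intro p q hpq hno
    constructor
    · intro hp
      by_contra hq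
      obtain ⟨x, y, h1, h2, h3, h4, h5⟩ := one p q hpq hp hq
      exact hno x y h1 h2 h3 h4 h5
    · intro hq
      by_contra hp
      obtain ⟨x, y, h1, h2, h3, h4, h5⟩ := one q p hpq.symm hq hp
      exact hno y x h2 h1 h4 h3 h5.symm
  have e04 := same 0 4 (by decide +kernel) (by decide +kernel)
  have e24 := same 2 4 (by decide +kernel) (by decide +kernel)
  have e25 := same 2 5 (by decide +kernel) (by decide +kernel)
  have e15 := same 1 5 (by decide +kernel) (by decide +kernel)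
  have e35 := same 3 5 (by decide +kernel) (by decide +kernel)
  have e37 := same 3 7 (by decide +kernel) (by decide +kernel)
  have e26 := same 2 6 (by decide +kernel) (by decide +kernel)
  have key : ∀ P : Fin 48 → Prop, P 0 → P 1 → P 2 → P 3 → P 4 → P 5 → P 6 → P 7 →
      ∀ x : Fin 48, (x : ℕ) < 8 → P x := by
    intro P p0 p1 p2 p3 p4 p5 p6 p7 x hx
    have : x = 0 ∨ x = 1 ∨ x = 2 ∨ x = 3 ∨ x = 4 ∨ x = 5 ∨ x = 6 ∨ x = 7 := by
      simp only [Fin.ext_iff]
      show (x : ℕ) = 0 ∨ (x : ℕ) = 1 ∨ (x : ℕ) = 2 ∨ (x : ℕ) = 3 ∨ (x : ℕ) = 4 ∨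
        (x : ℕ) = 5 ∨ (x : ℕ) = 6 ∨ (x : ℕ) = 7
      omega
    rcases this with rfl | rfl | rfl | rfl | rfl | rfl | rfl | rfl <;> assumption
  by_cases h0 : s 0
  · left
    have s4 := e04.1 h0
    have s2 := e24.2 s4
    have s5 := e25.1 s2
    exact key s h0 (e15.2 s5) s2 (e35.2 s5) s4 s5 (e26.1 s2) (e37.1 (e35.2 s5))
  · right
    have s4 : ¬ s 4 := fun hh => h0 (e04.2 hh)
    have s2 : ¬ s 2 := fun hh => s4 (e24.1 hh)
    have s5 : ¬ s 5 := fun hh => s2 (e25.2 hh)
    have s3 : ¬ s 3 := fun hh => s5 (e35.1 hh)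
    exact key (fun x => ¬ s x) h0 (fun hh => s5 (e15.1 hh)) s2 s3 s4 s5
      (fun hh => s2 (e26.2 hh)) (fun hh => s3 (e37.2 hh))

/-- the embedding of an arc of the long cycle -/
def arcEmb (a k : ℕ) (hk : k + 1 ≤ 38) : pathGraph (k + 1) ↪g G where
  toFun i := h (a + i)
  inj' i j hij := by
    have h1 := congrArg Fin.val hij
    simp only [h_val] at h1
    have := i.isLt
    have := j.isLt
    apply Fin.ext
    omega
  map_rel_iff' := by
    intro i j
    show G.Adj (h (a + i)) (h (a + j)) ↔ _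
    rw [h_adj, pathGraph_adj]
    have := i.isLt
    have := j.isLt
    omega

/-- a side consisting of an arc of the long cycle -/
theorem TJ.arc (t : TJ s A B) (hch : ∀ x : Fin 48, (x : ℕ) < 8 → ¬ s x) (a d : ℕ)
    (hd1 : 1 ≤ d) (hd2 : d ≤ 39) (hin : ∀ r, a ≤ r → r < a + d → s (h r))
    (hout : ∀ r, a + d ≤ r → r < a + 40 → ¬ s (h r))
    (ha : A (h a)) (ha' : A (h (a + 39))) (hb : B (h (a + d - 1))) (hb' : B (h (a + d))) :
    False := by
  rcases Nat.lt_or_ge d 2 with hd | hd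
  · have : a + d - 1 = a := by omega
    rw [this] at hb
    exact t.dis _ ha hb
  rcases Nat.lt_or_ge 38 d with hd' | hd'
  · have : a + d = a + 39 := by omega
    rw [this] at hb'
    exact t.dis _ ha' hb'
  have hs39 : ¬ s (h (a + 39)) := hout _ (by omega) (by omega)
  have hsd : ¬ s (h (a + d)) := hout _ (by omega) (by omega)
  obtain ⟨x, hx, hx'⟩ := t.p1.2 (d - 1) (arcEmb a (d - 1) (by omega)) (by
    refine ⟨?_, ?_, ?_, ?_⟩
    · intro i
      exact hin _ (by omega) (by have := i.isLt; omega)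
    · show A (h (a + 0))
      exact ha
    · show B (h (a + (d - 1)))
      have : a + (d - 1) = a + d - 1 := by omega
      rw [this]; exact hb
    · intro i hi hi'
      have h1 := i.isLt
      have h2 : (i : ℕ) ≠ 0 := fun he => hi (Fin.ext he)
      have h3 : (i : ℕ) ≠ d - 1 := fun he => hi' (Fin.ext he)
      have hsi : s (h (a + i)) := hin _ (by omega) (by omega)
      constructor
      · intro hA
        have hA' : A (h (a + i)) := hA
        have := (t.cross _ _ hsi hs39).2 (Or.inl ⟨hA', ha'⟩)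
        rw [h_adj] at this
        omega
      · intro hB
        have hB' : B (h (a + i)) := hB
        have := (t.cross _ _ hsi hsd).2 (Or.inr ⟨hB', hb'⟩)
        rw [h_adj] at this
        omega)
  rcases Nat.lt_or_ge (x : ℕ) 8 with h1 | h1
  · exact hch x h1 hx
  · obtain ⟨r, hr, rfl⟩ := eq_h x h1 a
    rcases Nat.lt_or_ge r d with h2 | h2
    · exact hx' ⟨⟨r, by omega⟩, rfl⟩
    · exact hout (a + r) (by omega) (by omega) hx

/-! ### the pattern of the sides along the long cycle -/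

theorem walk (P : ℕ → Prop) (p q : ℕ) (hpq : p ≤ q) (hp : P p) (hq : ¬ P q) :
    ∃ t, p ≤ t ∧ t < q ∧ (∀ r, p ≤ r → r ≤ t → P r) ∧ ¬ P (t + 1) := by
  classical
  have hex : ∃ n, ¬ P (p + n) := ⟨q - p, by rwa [Nat.add_sub_cancel' hpq]⟩
  have hspec := Nat.find_spec hex
  have hmin : ∀ m, m < Nat.find hex → P (p + m) := fun m hm => not_not.1 (Nat.find_min hex hm)
  have hle : Nat.find hex ≤ q - p := Nat.find_min' hex (by rwa [Nat.add_sub_cancel' hpq])
  have hpos : Nat.find hex ≠ 0 := by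
    intro h0
    rw [h0] at hspec
    exact hspec hp
  refine ⟨p + (Nat.find hex - 1), by omega, by omega, ?_, ?_⟩
  · intro r hr hr'
    have := hmin (r - p) (by omega)
    rwa [Nat.add_sub_cancel' hr] at this
  · have : p + (Nat.find hex - 1) + 1 = p + Nat.find hex := by omega
    rwa [this]

theorem TJ.edge_class (t : TJ s A B) (i : ℕ) (h1 : s (h i)) (h2 : ¬ s (h (i + 1))) :
    (A (h i) ∧ A (h (i + 1))) ∨ (B (h i) ∧ B (h (i + 1))) :=
  (t.cross _ _ h1 h2).1 ((h_adj _ _).2 (Or.inl rfl))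

theorem TJ.edge_class' (t : TJ s A B) (i : ℕ) (h1 : ¬ s (h i)) (h2 : s (h (i + 1))) :
    (A (h i) ∧ A (h (i + 1))) ∨ (B (h i) ∧ B (h (i + 1))) := by
  rcases (t.cross _ _ h2 h1).1 ((h_adj _ _).2 (Or.inr rfl)) with ⟨h3, h4⟩ | ⟨h3, h4⟩
  · exact Or.inl ⟨h4, h3⟩
  · exact Or.inr ⟨h4, h3⟩

/-- two exits of the same class coincide -/
theorem TJ.exit_unique (t : TJ s A B) (i j : ℕ) (hi : s (h i)) (hi' : ¬ s (h (i + 1)))
    (hj : s (h j)) (hj' : ¬ s (h (j + 1))) (a1 : A (h i)) (a2 : A (h (i + 1)))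
    (a3 : A (h j)) (a4 : A (h (j + 1))) : i % 40 = j % 40 := by
  have h1 := (t.cross _ _ hi hj').2 (Or.inl ⟨a1, a4⟩)
  have h2 := (t.cross _ _ hj hi').2 (Or.inl ⟨a3, a2⟩)
  rw [h_adj] at h1 h2
  omega

/-- an exit and an entrance of the same class are consecutive -/
theorem TJ.exit_enter (t : TJ s A B) (i j : ℕ) (hi : s (h i)) (hi' : ¬ s (h (i + 1)))
    (hj : ¬ s (h j)) (hj' : s (h (j + 1))) (a1 : A (h i)) (a2 : A (h (i + 1)))
    (a3 : A (h j)) (a4 : A (h (j + 1))) :
    j % 40 = (i + 1) % 40 ∨ (j + 1) % 40 = i % 40 := by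
  have h1 := (t.cross _ _ hi hj).2 (Or.inl ⟨a1, a3⟩)
  have h2 := (t.cross _ _ hj' hi').2 (Or.inl ⟨a4, a2⟩)
  rw [h_adj] at h1 h2
  omega

/-- two entrances of the same class coincide -/
theorem TJ.enter_unique (t : TJ s A B) (i j : ℕ) (hi : ¬ s (h i)) (hi' : s (h (i + 1)))
    (hj : ¬ s (h j)) (hj' : s (h (j + 1))) (a1 : A (h i)) (a2 : A (h (i + 1)))
    (a3 : A (h j)) (a4 : A (h (j + 1))) : i % 40 = j % 40 := by
  have h1 := (t.cross _ _ hi' hj).2 (Or.inl ⟨a2, a3⟩)
  have h2 := (t.cross _ _ hj' hi).2 (Or.inl ⟨a4, a1⟩)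
  rw [h_adj] at h1 h2
  omega

/-- no 2-join with an exit of class `A` -/
theorem TJ.no_exitA (t : TJ s A B) (t0 : ℕ) (h0 : s (h t0)) (h0' : ¬ s (h (t0 + 1)))
    (hA0 : A (h t0)) (hA0' : A (h (t0 + 1))) : False := by
  have per : ∀ r, s (h (r + 40)) ↔ s (h r) := fun r => by rw [h_add]
  -- the first entrance after `t0`
  obtain ⟨t1, h10, h11, h12, h13⟩ := walk (fun r => ¬ s (h r)) (t0 + 1) (t0 + 40) (by omega) h0'
    (not_not.2 ((per t0).2 h0))
  have h13' : s (h (t1 + 1)) := not_not.1 h13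
  have h1n : ¬ s (h t1) := h12 t1 h10 le_rfl
  -- every vertex of the cycle is some `h r` with `t0 + 1 ≤ r ≤ t0 + 40`
  have cov : ∀ x : Fin 48, 8 ≤ (x : ℕ) → ∃ r, t0 + 1 ≤ r ∧ r ≤ t0 + 40 ∧ x = h r := by
    intro x hx
    obtain ⟨r, hr, he⟩ := eq_h x hx (t0 + 1)
    exact ⟨t0 + 1 + r, by omega, by omega, he⟩
  by_cases hall : ∀ r, t1 + 1 ≤ r → r ≤ t0 + 40 → s (h r)
  · -- only two cross edges
    rcases t.edge_class' t1 h1n h13' with ⟨hA1, hA1'⟩ | ⟨hB1, hB1'⟩
    · -- same class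
      rcases t.exit_enter t0 t1 h0 h0' h1n h13' hA0 hA0' hA1 hA1' with he | he
      · -- `t1 = t0 + 1`: the other side has a single vertex
        have : t1 = t0 + 1 := by omega
        subst this
        refine t.swapS.hole_single t0 h0' ?_ hA0'
        intro x hx hxne hxs
        obtain ⟨r, hr1, hr2, rfl⟩ := cov x hx
        rcases Nat.lt_or_ge (t0 + 1) r with hr | hr
        · exact hxs (hall r (by omega) hr2)
        · have : r = t0 + 1 := by omega
          subst this
          exact hxne rfl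
      · -- `t1 = t0 + 39`
        have : t1 = t0 + 39 := by omega
        subst this
        have e : h (t0 + 39 + 1) = h t0 := h_add t0
        refine t.hole_single (t0 + 39) h13' ?_ hA1'
        intro x hx hxne hxs
        obtain ⟨r, hr1, hr2, rfl⟩ := cov x hx
        rcases Nat.lt_or_ge r (t0 + 40) with hr | hr
        · exact h12 r hr1 (by omega) hxs
        · have : r = t0 + 39 + 1 := by omega
          subst this
          exact hxne rfl
    · -- different classes
      have e40 : h (t0 + 40) = h t0 := h_add t0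
      have hcs := t.chords_same
        ⟨h t0, h (t0 + 1), h_ge _, h_ge _, h0, h0', hA0, hA0', (h_adj _ _).2 (Or.inl rfl)⟩
        ⟨h (t1 + 1), h t1, h_ge _, h_ge _, h13', h1n, hB1', hB1, (h_adj _ _).2 (Or.inr rfl)⟩
      rcases hcs with hcs | hcs
      · -- chord vertices on side `s`: the other side is the arc from `t0 + 1` to `t1`
        refine t.swapS.arc (fun x hx => not_not.2 (hcs x hx)) (t0 + 1) (t1 - t0) (by omega)
          (by omega) ?_ ?_ hA0' ?_ ?_ ?_
        · intro r hr hr'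
          exact h12 r hr (by omega)
        · intro r hr hr'
          exact not_not.2 (hall r (by omega) (by omega))
        · have : t0 + 1 + 39 = t0 + 40 := by omega
          rw [this, e40]; exact hA0
        · have : t0 + 1 + (t1 - t0) - 1 = t1 := by omega
          rw [this]; exact hB1
        · have : t0 + 1 + (t1 - t0) = t1 + 1 := by omega
          rw [this]; exact hB1'
      · -- chord vertices on the other side: side `s` is the arc from `t1 + 1` to `t0 + 40`
        refine t.swapAB.arc hcs (t1 + 1) (t0 + 40 - t1) (by omega) (by omega) ?_ ?_ hB1' ?_ ?_ ?_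
        · intro r hr hr'
          exact hall r hr (by omega)
        · intro r hr hr'
          have e : r = (r - 40) + 40 := by omega
          rw [e, h_add]
          exact h12 (r - 40) (by omega) (by omega)
        · have : t1 + 1 + 39 = t1 + 40 := by omega
          rw [this, h_add]; exact hB1
        · have : t1 + 1 + (t0 + 40 - t1) - 1 = t0 + 40 := by omega
          rw [this, e40]; exact hA0
        · have : t1 + 1 + (t0 + 40 - t1) = t0 + 1 + 40 := by omega
          rw [this, h_add]; exact hA0'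
  · -- at least four cross edges
    push Not at hall
    obtain ⟨q, hq1, hq2, hq3⟩ := hall
    obtain ⟨t2, h20, h21, h22, h23⟩ := walk (fun r => s (h r)) (t1 + 1) q hq1 h13' hq3
    have hs2 : s (h t2) := h22 t2 h20 le_rfl
    have hne40 : q ≠ t0 + 40 := by
      rintro rfl
      exact hq3 ((per t0).2 h0)
    obtain ⟨t3, h30, h31, h32, h33⟩ := walk (fun r => ¬ s (h r)) (t2 + 1) (t0 + 40) (by omega) h23
      (not_not.2 ((per t0).2 h0))
    have h33' : s (h (t3 + 1)) := not_not.1 h33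
    have h3n : ¬ s (h t3) := h32 t3 h30 le_rfl
    -- the exit at `t2` has class `B`
    have hB2 : B (h t2) ∧ B (h (t2 + 1)) := by
      rcases t.edge_class t2 hs2 h23 with ⟨g1, g2⟩ | g
      · have := t.exit_unique t0 t2 h0 h0' hs2 h23 hA0 hA0' g1 g2
        omega
      · exact g
    -- there is no third exit
    have hlast : ∀ r, t3 + 1 ≤ r → r ≤ t0 + 40 → s (h r) := by
      by_contra hcon
      push Not at hcon
      obtain ⟨q', hq1', hq2', hq3'⟩ := hcon
      obtain ⟨t4, h40, h41, h42, h43⟩ := walk (fun r => s (h r)) (t3 + 1) q' hq1' h33' hq3'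
      have hs4 : s (h t4) := h42 t4 h40 le_rfl
      have hne40' : q' ≠ t0 + 40 := by
        rintro rfl
        exact hq3' ((per t0).2 h0)
      rcases t.edge_class t4 hs4 h43 with ⟨g1, g2⟩ | ⟨g1, g2⟩
      · have := t.exit_unique t0 t4 h0 h0' hs4 h43 hA0 hA0' g1 g2
        omega
      · have := t.swapAB.exit_unique t2 t4 hs2 h23 hs4 h43 hB2.1 hB2.2 g1 g2
        omega
    have hcs := t.chords_same
      ⟨h t0, h (t0 + 1), h_ge _, h_ge _, h0, h0', hA0, hA0', (h_adj _ _).2 (Or.inl rfl)⟩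
      ⟨h t2, h (t2 + 1), h_ge _, h_ge _, hs2, h23, hB2.1, hB2.2, (h_adj _ _).2 (Or.inl rfl)⟩
    rcases t.edge_class' t1 h1n h13' with ⟨hA1, hA1'⟩ | ⟨hB1, hB1'⟩
    · -- entrances: `t1` of class `A`, `t3` of class `B`
      have hB3 : B (h t3) ∧ B (h (t3 + 1)) := by
        rcases t.edge_class' t3 h3n h33' with ⟨g1, g2⟩ | g
        · have := t.enter_unique t1 t3 h1n h13' h3n h33' hA1 hA1' g1 g2
          omega
        · exact g
      have e1 : t1 = t0 + 1 := by
        have := t.exit_enter t0 t1 h0 h0' h1n h13' hA0 hA0' hA1 hA1'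
        omega
      have e3 : t3 = t2 + 1 := by
        have := t.swapAB.exit_enter t2 t3 hs2 h23 h3n h33' hB2.1 hB2.2 hB3.1 hB3.2
        omega
      subst e1
      subst e3
      refine t.swapS.hole_double t0 t2 h0' h23 ?_ (not_not.2 h0) (not_not.2 h13')
        (not_not.2 hs2) (not_not.2 h33') hA0' hB2.2 ?_
      · intro x hx hx1 hx2 hxs
        obtain ⟨r, hr1, hr2, rfl⟩ := cov x hx
        apply hxs
        rcases Nat.lt_or_ge t2 r with hr | hr
        · rcases Nat.lt_or_ge (t2 + 1) r with hr' | hr'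
          · exact hlast r (by omega) hr2
          · have : r = t2 + 1 := by omega
            subst this
            exact absurd rfl hx2
        · rcases Nat.lt_or_ge (t0 + 1) r with hr' | hr'
          · exact h22 r (by omega) hr
          · have : r = t0 + 1 := by omega
            subst this
            exact absurd rfl hx1
      · rcases hcs with hcs | hcs
        · exact Or.inr fun x hx => not_not.2 (hcs x hx)
        · exact Or.inl hcs
    · -- entrances: `t1` of class `B`, `t3` of class `A`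
      have hA3 : A (h t3) ∧ A (h (t3 + 1)) := by
        rcases t.edge_class' t3 h3n h33' with g | ⟨g1, g2⟩
        · exact g
        · have := t.swapAB.enter_unique t1 t3 h1n h13' h3n h33' hB1 hB1' g1 g2
          omega
      have e1 : t2 = t1 + 1 := by
        have := t.swapAB.exit_enter t2 t1 hs2 h23 h1n h13' hB2.1 hB2.2 hB1 hB1'
        omega
      have e3 : t3 = t0 + 39 := by
        have := t.exit_enter t0 t3 h0 h0' h3n h33' hA0 hA0' hA3.1 hA3.2
        omega
      subst e1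
      subst e3
      refine t.hole_double (t0 + 39) t1 h33' hs2 ?_ h3n ?_ h1n h23 hA3.2 hB2.1 hcs
      · intro x hx hx1 hx2 hxs
        obtain ⟨r, hr1, hr2, rfl⟩ := cov x hx
        rcases Nat.lt_or_ge t1 r with hr | hr
        · rcases Nat.lt_or_ge (t1 + 1) r with hr' | hr'
          · rcases Nat.lt_or_ge (t0 + 39) r with hr'' | hr''
            · have : r = t0 + 39 + 1 := by omega
              subst this
              exact absurd rfl hx1
            · exact h32 r (by omega) hr'' hxs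
          · have : r = t1 + 1 := by omega
            subst this
            exact absurd rfl hx2
        · exact h12 r hr1 hr hxs
      · have : t0 + 39 + 2 = t0 + 1 + 40 := by omega
        rw [this, h_add]; exact h0'

/-- no 2-join -/
theorem TJ.false (t : TJ s A B) : False := by
  by_cases hc : ∃ i, s (h i) ∧ ¬ s (h (i + 1))
  · obtain ⟨i, h1, h2⟩ := hc
    rcases t.edge_class i h1 h2 with ⟨a1, a2⟩ | ⟨b1, b2⟩
    · exact t.no_exitA i h1 h2 a1 a2
    · exact t.swapAB.no_exitA i h1 h2 b1 b2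
  · push Not at hc
    by_cases h0 : s (h 0)
    · have hall : ∀ i, s (h i) := by
        intro i
        induction i with
        | zero => exact h0
        | succ i ih => exact hc i ih
      refine t.swapS.hole_const fun x hx => ?_
      obtain ⟨r, -, rfl⟩ := eq_h x hx 0
      exact not_not.2 (hall _)
    · have hall : ∀ i, ¬ s (h i) := by
        intro i hi
        -- walk from `i` to a multiple of 40
        have hup : ∀ k, s (h (i + k)) := by
          intro k
          induction k with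
          | zero => exact hi
          | succ k ih => exact hc (i + k) ih
        have := hup (40 - i % 40)
        have e : h (i + (40 - i % 40)) = h 0 := h_congr (by omega)
        rw [e] at this
        exact h0 this
      refine t.hole_const fun x hx => ?_
      obtain ⟨r, -, rfl⟩ := eq_h x hx 0
      exact hall _

end Pool.Agent.Lib.MP_4a358c_co.H63
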